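import Pool.Agent.Helper81.Hodge.Semi

/-!
# Comparison of two varieties
-/

set_option autoImplicit false

namespace Pool.Agent.Hodge81

open Complex Module

namespace HodgeRing

variable {n : ℕ} {A : Type*} [Ring A] [Algebra ℂ A] (X : HodgeRing n A) [FiniteDimensional ℂ A]

/-- the dimensions in one column -/
theorem dims {a b r : ℕ} (hn : a + b + 2 * r = n) (hab : a = 0 ∨ b = 0) :
    finrank ℂ (X.semi a b r 0) + X.h (a + r) (b + r) =
      2 * ∑ k ∈ Finset.range (r + 1),
        (if k % 2 = 0 then X.h (a + (r - k)) (b + (r - k)) else 0) ∧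
    finrank ℂ (X.semi a b r 1) =
      2 * ∑ k ∈ Finset.range (r + 1),
        (if k % 2 = 1 then X.h (a + (r - k)) (b + (r - k)) else 0) ∧
    finrank ℂ (X.semi a b r 0) + finrank ℂ (X.semi a b r 1) =
      finrank ℂ (⨆ j ∈ Finset.range (2 * r + 1), X.H (a + j) (b + j) : Submodule ℂ A) := by
  have hlast : X.h (a + (r + (r + 1))) (b + (r + (r + 1))) = 0 := by
    unfold h
    rw [X.bounded _ _ (by rcases hab with h | h <;> omega), finrank_bot]
  obtain ⟨c1, c2⟩ := count_aux (fun k => X.h (a + (r + k)) (b + (r + k)))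
    (fun k => finrank ℂ (X.prim a b r k)) (r + 1) (fun k hk => by
      have h1 := X.finrank_prim hn (show k ≤ r by omega) hab
      have h2 := X.h_symm hn (show k ≤ r by omega)
      rw [← h2, ← h1]
      rfl)
  have hE : ∀ t, ∑ k ∈ Finset.range (r + 1 + 1),
      (if k % 2 = t then X.h (a + (r + k)) (b + (r + k)) else 0) =
      ∑ k ∈ Finset.range (r + 1), (if k % 2 = t then X.h (a + (r - k)) (b + (r - k)) else 0) := by
    intro t
    rw [Finset.sum_range_succ, hlast, ite_self, add_zero]
    refine Finset.sum_congr rfl fun k hk => ?_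
    rw [X.h_symm hn (show k ≤ r by simp only [Finset.mem_range] at hk; omega)]
  have hE' : ∀ t, ∑ k ∈ Finset.range (r + 1),
      (if k % 2 = t then X.h (a + (r + k)) (b + (r + k)) else 0) =
      ∑ k ∈ Finset.range (r + 1), (if k % 2 = t then X.h (a + (r - k)) (b + (r - k)) else 0) := by
    intro t
    refine Finset.sum_congr rfl fun k hk => ?_
    rw [X.h_symm hn (show k ≤ r by simp only [Finset.mem_range] at hk; omega)]
  simp only [hE, hE', add_zero] at c1 c2
  have hf : ∑ j ∈ Finset.Ioc r (2 * r), X.h (a + j) (b + j) + X.h (a + r) (b + r) =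
      ∑ k ∈ Finset.range (r + 1), X.h (a + (r - k)) (b + (r - k)) := by
    have e1 : ∑ k ∈ Finset.range (r + 1), X.h (a + (r - k)) (b + (r - k)) =
        ∑ k ∈ Finset.range (r + 1), X.h (a + (r + k)) (b + (r + k)) := by
      refine Finset.sum_congr rfl fun k hk => ?_
      rw [X.h_symm hn (show k ≤ r by simp only [Finset.mem_range] at hk; omega)]
    rw [e1, Finset.sum_range_succ']
    congr 1
    have e2 : Finset.Ioc r (2 * r) = Finset.Ico (r + 1) (2 * r + 1) := by
      ext x
      simp only [Finset.mem_Ioc, Finset.mem_Ico]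
      omega
    rw [e2, Finset.sum_Ico_eq_sum_range, show 2 * r + 1 - (r + 1) = r by omega]
    refine Finset.sum_congr rfl fun k _ => ?_
    rw [show r + 1 + k = r + (k + 1) by ring]
  have hsplit : ∑ k ∈ Finset.range (r + 1), X.h (a + (r - k)) (b + (r - k)) =
      (∑ k ∈ Finset.range (r + 1), (if k % 2 = 0 then X.h (a + (r - k)) (b + (r - k)) else 0)) +
      ∑ k ∈ Finset.range (r + 1), (if k % 2 = 1 then X.h (a + (r - k)) (b + (r - k)) else 0) := by
    rw [← Finset.sum_add_distrib]
    refine Finset.sum_congr rfl fun k _ => ?_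
    rcases Nat.mod_two_eq_zero_or_one k with h0 | h1
    · simp [h0]
    · simp [h1]
  have hC : finrank ℂ (⨆ j ∈ Finset.range (2 * r + 1), X.H (a + j) (b + j) : Submodule ℂ A) =
      ∑ k ∈ Finset.range (r + 1), X.h (a + (r - k)) (b + (r - k)) +
        ∑ j ∈ Finset.Ioc r (2 * r), X.h (a + j) (b + j) := by
    rw [X.finrank_pieces]
    have e1 := Finset.sum_range_reflect (fun j => X.h (a + j) (b + j)) (r + 1)
    simp only [Nat.add_sub_cancel] at e1
    have e3 : ∀ j : ℕ, r + 1 - 1 - j = r - j := fun j => by omega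
    rw [e1]
    have e2 : Finset.Ioc r (2 * r) = Finset.Ico (r + 1) (2 * r + 1) := by
      ext x
      simp only [Finset.mem_Ioc, Finset.mem_Ico]
      omega
    rw [e2, Finset.range_eq_Ico, Finset.range_eq_Ico,
      Finset.sum_Ico_consecutive _ (Nat.zero_le _) (by omega)]
  rw [X.finrank_semi hn, X.finrank_semi hn, hC]
  refine ⟨?_, ?_, ?_⟩ <;> omega

end HodgeRing

variable {n : ℕ} {A B : Type*} [Ring A] [Algebra ℂ A] [FiniteDimensional ℂ A]
  [Ring B] [Algebra ℂ B] [FiniteDimensional ℂ B]

omit [FiniteDimensional ℂ A] [FiniteDimensional ℂ B] in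
theorem form_map {X : HodgeRing n A} {Y : HodgeRing n B} {phi : A ≃ₗ[ℂ] B}
    (hphi : IsMukaiIsometry X Y phi) (v w : A) : Y.form (phi v) (phi w) = X.form v w := by
  rw [HodgeRing.form_apply, HodgeRing.form_apply, ← hphi.conj, ← hphi.conj, hphi.mukai,
    hphi.mukai]

omit [FiniteDimensional ℂ A] in
theorem transfer_le {X : HodgeRing n A} {Y : HodgeRing n B} {phi : A ≃ₗ[ℂ] B}
    (hphi : IsMukaiIsometry X Y phi) {a b r : ℕ} (hn : a + b + 2 * r = n)
    (hab : a = 0 ∨ b = 0) {s t : ℕ} (hst : s + t = 1) :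
    finrank ℂ (X.semi a b r s) + finrank ℂ (Y.semi a b r t) ≤
      finrank ℂ (⨆ j ∈ Finset.range (2 * r + 1), Y.H (a + j) (b + j) : Submodule ℂ B) := by
  set e : ℝ := (-1 : ℝ) ^ (b + r + n * (n - 1) / 2) * (-1) ^ s with he
  have he0 : e ≠ 0 := by
    rw [he]
    exact mul_ne_zero (pow_ne_zero _ (by norm_num)) (pow_ne_zero _ (by norm_num))
  set C : Submodule ℂ B := ⨆ j ∈ Finset.range (2 * r + 1), Y.H (a + j) (b + j) with hC
  have hfd : FiniteDimensional ℝ B := FiniteDimensional.complexToReal B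
  have hcol := hphi.column ((a : ℤ) - (b : ℤ))
  rw [X.column_eq hn hab, Y.column_eq hn hab] at hcol
  have key := finrank_add_le' (e • Y.form)
    (fun v w => by simp only [LinearMap.smul_apply, Y.form_symm v w])
    (C.restrictScalars ℝ)
    (fun v hv h => Y.form_nondeg hn hv fun w hw => by
      have := h w hw
      simp only [LinearMap.smul_apply, smul_eq_mul] at this
      exact (mul_eq_zero.1 this).resolve_left he0)
    (((X.semi a b r s).map phi.toLinearMap).restrictScalars ℝ)
    ((Y.semi a b r t).restrictScalars ℝ)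
    (by
      rintro _ ⟨y, hy, rfl⟩
      have : phi y ∈ C := by
        rw [hC, ← hcol]
        exact Submodule.mem_map_of_mem (X.semi_le a b r s hy)
      exact this)
    (fun y hy => Y.semi_le a b r t hy)
    (by
      rintro _ ⟨y, hy, rfl⟩
      have h1 := X.form_semi hn hy
      have h2 : Y.form (phi y) (phi y) = X.form y y := form_map hphi y y
      simp only [LinearMap.smul_apply, smul_eq_mul, LinearEquiv.coe_coe]
      rw [h2]
      exact h1)
    (by
      intro z hz
      have h1 := Y.form_semi hn hz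
      have h3 : (-1 : ℝ) ^ s = -(-1) ^ t := by
        rcases Nat.eq_zero_or_pos s with h | h
        · have ht : t = 1 := by omega
          subst ht
          rw [h]
          norm_num
        · have hs : s = 1 := by omega
          have ht : t = 0 := by omega
          subst ht
          rw [hs]
          norm_num
      simp only [LinearMap.smul_apply, smul_eq_mul]
      rw [he, h3]
      linarith)
  rw [finrank_restrict, finrank_restrict, finrank_restrict] at key
  have h4 : finrank ℂ ((X.semi a b r s).map phi.toLinearMap) = finrank ℂ (X.semi a b r s) :=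
    (phi.submoduleMap (X.semi a b r s)).symm.finrank_eq
  rw [h4] at key
  omega

omit [FiniteDimensional ℂ A] [FiniteDimensional ℂ B] in
/-- the dimension of a column -/
theorem column_finrank {X : HodgeRing n A} {Y : HodgeRing n B} {phi : A ≃ₗ[ℂ] B}
    (hphi : IsMukaiIsometry X Y phi) (i : ℤ) :
    finrank ℂ (X.column i) = finrank ℂ (Y.column i) := by
  rw [← hphi.column i]
  exact (phi.submoduleMap (X.column i)).finrank_eq

theorem transfer {X : HodgeRing n A} {Y : HodgeRing n B} {phi : A ≃ₗ[ℂ] B}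
    (hphi : IsMukaiIsometry X Y phi) {a b r : ℕ} (hn : a + b + 2 * r = n)
    (hab : a = 0 ∨ b = 0) :
    finrank ℂ (X.semi a b r 0) = finrank ℂ (Y.semi a b r 0) ∧
      finrank ℂ (X.semi a b r 1) = finrank ℂ (Y.semi a b r 1) := by
  have h1 := transfer_le hphi hn hab (s := 0) (t := 1) rfl
  have h2 := transfer_le hphi hn hab (s := 1) (t := 0) rfl
  have hX := (X.dims hn hab).2.2
  have hY := (Y.dims hn hab).2.2
  have hc := column_finrank hphi ((a : ℤ) - (b : ℤ))
  rw [X.column_eq hn hab, Y.column_eq hn hab] at hc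
  constructor <;> omega

/-- main theorem, first form -/
theorem main_aux {X : HodgeRing n A} {Y : HodgeRing n B} {phi : A ≃ₗ[ℂ] B}
    (hphi : IsMukaiIsometry X Y phi) {p q : ℕ} (hpq : p + q = n) :
    (∑ k ∈ Finset.range (min p q + 1), (if k % 2 = 1 then X.h (p - k) (q - k) else 0) =
      ∑ k ∈ Finset.range (min p q + 1), (if k % 2 = 1 then Y.h (p - k) (q - k) else 0)) ∧
    (2 * ∑ k ∈ Finset.range (min p q + 1), (if k % 2 = 0 then X.h (p - k) (q - k) else 0) +
        Y.h p q =
      2 * ∑ k ∈ Finset.range (min p q + 1), (if k % 2 = 0 then Y.h (p - k) (q - k) else 0) +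
        X.h p q) := by
  obtain ⟨a, b, r, hp, hq, hr, hab⟩ : ∃ a b r, p = a + r ∧ q = b + r ∧ min p q = r ∧
      (a = 0 ∨ b = 0) := by
    refine ⟨p - min p q, q - min p q, min p q, ?_, ?_, rfl, ?_⟩ <;> omega
  have hn : a + b + 2 * r = n := by omega
  obtain ⟨t0, t1⟩ := transfer hphi hn hab
  obtain ⟨x0, x1, -⟩ := X.dims hn hab
  obtain ⟨y0, y1, -⟩ := Y.dims hn hab
  have e : ∀ (h : ℕ → ℕ → ℕ) (t : ℕ),
      ∑ k ∈ Finset.range (r + 1), (if k % 2 = t then h (a + (r - k)) (b + (r - k)) else 0) =
      ∑ k ∈ Finset.range (r + 1), (if k % 2 = t then h (p - k) (q - k) else 0) := by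
    intro h t
    refine Finset.sum_congr rfl fun k hk => ?_
    simp only [Finset.mem_range] at hk
    rw [show a + (r - k) = p - k by omega, show b + (r - k) = q - k by omega]
  rw [e X.h] at x0 x1
  rw [e Y.h] at y0 y1
  rw [← hp, ← hq] at x0 y0
  rw [hr]
  constructor <;> omega

/-- sums over a column -/
theorem column_sum {X : HodgeRing n A} {Y : HodgeRing n B} {phi : A ≃ₗ[ℂ] B}
    (hphi : IsMukaiIsometry X Y phi) {a b m : ℕ} (hn : a + b + m = n) (hab : a = 0 ∨ b = 0) :
    ∑ j ∈ Finset.range (m + 1), X.h (a + j) (b + j) =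
      ∑ j ∈ Finset.range (m + 1), Y.h (a + j) (b + j) := by
  have h := column_finrank hphi ((a : ℤ) - (b : ℤ))
  rwa [X.column_eq hn hab, Y.column_eq hn hab, X.finrank_pieces, Y.finrank_pieces] at h

/-- it is enough to compare the Hodge numbers with `q ≤ p`, `p + q ≤ n` -/
theorem reduce (X : HodgeRing n A) (Y : HodgeRing n B) (P : ℕ → ℕ → Prop)
    (hP : ∀ p q, P p q → P q p) (hP' : ∀ p q, p ≤ n → q ≤ n → P p q → P (n - p) (n - q))
    (h : ∀ p q, q ≤ p → p + q ≤ n → P p q → X.h p q = Y.h p q) (p q : ℕ) (hpq : P p q) :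
    X.h p q = Y.h p q := by
  have h1 : ∀ p q, p + q ≤ n → P p q → X.h p q = Y.h p q := by
    intro p q hpq hpp
    rcases le_total q p with hle | hle
    · exact h p q hle hpq hpp
    · rw [X.h_conj p q, Y.h_conj p q]
      exact h q p hle (by omega) (hP p q hpp)
  by_cases hb : n < p ∨ n < q
  · unfold HodgeRing.h
    rw [X.bounded p q hb, Y.bounded p q hb, finrank_bot, finrank_bot]
  · rcases Nat.lt_or_ge n (p + q) with hlt | hge
    · rw [← X.h_serre (p := p) (q := q) (by omega) (by omega),
        ← Y.h_serre (p := p) (q := q) (by omega) (by omega)]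
      exact h1 _ _ (by omega) (hP' p q (by omega) (by omega) hpq)
    · exact h1 p q hge hpq

/-- dimension four, even degrees -/
theorem fourfold_even {X : HodgeRing 4 A} {Y : HodgeRing 4 B} {phi : A ≃ₗ[ℂ] B}
    (hphi : IsMukaiIsometry X Y phi) (p q : ℕ) (hpq : Even (p + q)) : X.h p q = Y.h p q := by
  have h00 : X.h 0 0 = Y.h 0 0 := by
    unfold HodgeRing.h
    rw [X.connected, Y.connected]
  have m31 := main_aux hphi (p := 3) (q := 1) rfl
  have m22 := main_aux hphi (p := 2) (q := 2) rfl
  have m40 := main_aux hphi (p := 4) (q := 0) rfl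
  rw [show min 3 1 + 1 = 2 from rfl] at m31
  rw [show min 2 2 + 1 = 3 from rfl] at m22
  rw [show min 4 0 + 1 = 1 from rfl] at m40
  simp only [Finset.sum_range_succ, Finset.sum_range_zero] at m31 m22 m40
  norm_num at m31 m22 m40
  refine reduce X Y (fun p q => Even (p + q)) (fun p q h => by rwa [add_comm])
    (fun p q hp hq h => by
      rw [Nat.even_iff] at h ⊢
      omega) (fun p q hqp hpq hev => ?_) p q hpq
  rw [Nat.even_iff] at hev
  have hp : p ≤ 4 := by omega
  have hq : q ≤ 2 := by omega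
  interval_cases q <;> interval_cases p <;> omega

/-- dimension four -/
theorem fourfold {X : HodgeRing 4 A} {Y : HodgeRing 4 B} {phi : A ≃ₗ[ℂ] B}
    (hphi : IsMukaiIsometry X Y phi) (h10 : X.h 1 0 = Y.h 1 0) (p q : ℕ) :
    X.h p q = Y.h p q := by
  have c3 := column_sum hphi (a := 3) (b := 0) (m := 1) rfl (Or.inr rfl)
  have c1 := column_sum hphi (a := 1) (b := 0) (m := 3) rfl (Or.inr rfl)
  have x1 := X.h_serre (p := 4) (q := 1) (by norm_num) (by norm_num)
  have y1 := Y.h_serre (p := 4) (q := 1) (by norm_num) (by norm_num)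
  have x2 := X.h_serre (p := 3) (q := 2) (by norm_num) (by norm_num)
  have y2 := Y.h_serre (p := 3) (q := 2) (by norm_num) (by norm_num)
  have x3 := X.h_serre (p := 4) (q := 3) (by norm_num) (by norm_num)
  have y3 := Y.h_serre (p := 4) (q := 3) (by norm_num) (by norm_num)
  have x4 := X.h_conj 0 3
  have y4 := Y.h_conj 0 3
  have x5 := X.h_conj 1 2
  have y5 := Y.h_conj 1 2
  have x6 := X.h_conj 0 1
  have y6 := Y.h_conj 0 1
  simp only [Finset.sum_range_succ, Finset.sum_range_zero] at c3 c1
  norm_num at c3 c1 x1 x2 x3 y1 y2 y3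
  refine reduce X Y (fun _ _ => True) (fun _ _ _ => trivial) (fun _ _ _ _ _ => trivial)
    (fun p q hqp hpq _ => ?_) p q trivial
  have hp : p ≤ 4 := by omega
  have hq : q ≤ 2 := by omega
  rcases Nat.even_or_odd (p + q) with hev | hodd
  · exact fourfold_even hphi p q hev
  · rw [Nat.odd_iff] at hodd
    interval_cases q <;> interval_cases p <;> omega

/-- dimension five, odd degrees -/
theorem fivefold_odd {X : HodgeRing 5 A} {Y : HodgeRing 5 B} {phi : A ≃ₗ[ℂ] B}
    (hphi : IsMukaiIsometry X Y phi) (h10 : X.h 1 0 = Y.h 1 0) (p q : ℕ) (hpq : Odd (p + q)) :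
    X.h p q = Y.h p q := by
  have m32 := main_aux hphi (p := 3) (q := 2) rfl
  have m41 := main_aux hphi (p := 4) (q := 1) rfl
  have m50 := main_aux hphi (p := 5) (q := 0) rfl
  rw [show min 3 2 + 1 = 3 from rfl] at m32
  rw [show min 4 1 + 1 = 2 from rfl] at m41
  rw [show min 5 0 + 1 = 1 from rfl] at m50
  simp only [Finset.sum_range_succ, Finset.sum_range_zero] at m32 m41 m50
  norm_num at m32 m41 m50
  refine reduce X Y (fun p q => Odd (p + q)) (fun p q h => by rwa [add_comm])
    (fun p q hp hq h => by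
      rw [Nat.odd_iff] at h ⊢
      omega) (fun p q hqp hpq hev => ?_) p q hpq
  rw [Nat.odd_iff] at hev
  have hp : p ≤ 5 := by omega
  have hq : q ≤ 2 := by omega
  interval_cases q <;> interval_cases p <;> omega

/-- the final form -/
theorem main (X : HodgeRing n A) (Y : HodgeRing n B) (phi : A ≃ₗ[ℂ] B)
    (hphi : IsMukaiIsometry X Y phi) :
    (∀ p q, p + q = n →
      ∑ k ∈ Finset.range (min p q + 1) with Odd k, X.h (p - k) (q - k) =
        ∑ k ∈ Finset.range (min p q + 1) with Odd k, Y.h (p - k) (q - k) ∧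
      X.h p q + 2 * ∑ k ∈ Finset.Icc 1 (min p q) with Even k, X.h (p - k) (q - k) =
        Y.h p q + 2 * ∑ k ∈ Finset.Icc 1 (min p q) with Even k, Y.h (p - k) (q - k)) ∧
    (2 ≤ n → X.h 0 (n - 2) = Y.h 0 (n - 2)) ∧
    (n = 4 → (∀ p q, Even (p + q) → X.h p q = Y.h p q) ∧
      (X.h 1 0 = Y.h 1 0 → ∀ p q, X.h p q = Y.h p q)) ∧
    (n = 5 → X.h 1 0 = Y.h 1 0 → ∀ p q, Odd (p + q) → X.h p q = Y.h p q) := by
  have hfirst : ∀ p q, p + q = n →
      ∑ k ∈ Finset.range (min p q + 1) with Odd k, X.h (p - k) (q - k) =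
        ∑ k ∈ Finset.range (min p q + 1) with Odd k, Y.h (p - k) (q - k) := by
    intro p q hpq
    have h1 := (main_aux hphi hpq).1
    rw [Finset.sum_filter, Finset.sum_filter]
    simpa only [Nat.odd_iff] using h1
  refine ⟨fun p q hpq => ⟨hfirst p q hpq, ?_⟩, fun hn => ?_, fun hn => ?_, fun hn h10 => ?_⟩
  · have h2 := (main_aux hphi hpq).2
    have e : ∀ h : ℕ → ℕ → ℕ, ∑ k ∈ Finset.range (min p q + 1),
        (if k % 2 = 0 then h (p - k) (q - k) else 0) =
        (∑ k ∈ Finset.Icc 1 (min p q) with Even k, h (p - k) (q - k)) + h p q := by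
      intro h
      rw [Finset.sum_range_succ', Finset.sum_filter]
      simp only [Nat.zero_mod, if_true, Nat.sub_zero]
      congr 1
      rw [show Finset.Icc 1 (min p q) = Finset.Ico 1 (min p q + 1) from rfl,
        Finset.sum_Ico_eq_sum_range, Nat.add_sub_cancel]
      refine Finset.sum_congr rfl fun k _ => ?_
      rw [add_comm 1 k]
      simp only [Nat.even_iff]
    rw [e X.h, e Y.h] at h2
    omega
  · have h1 := hfirst 1 (n - 1) (by omega)
    rw [show min 1 (n - 1) + 1 = 2 by omega, Finset.sum_filter, Finset.sum_filter,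
      Finset.sum_range_succ, Finset.sum_range_succ, Finset.sum_range_zero, Finset.sum_range_succ,
      Finset.sum_range_succ, Finset.sum_range_zero] at h1
    have h0 : ¬ Odd 0 := by decide
    have h0' : Odd 1 := by decide
    rw [if_neg h0, if_pos h0', if_neg h0, if_pos h0'] at h1
    simpa only [zero_add, Nat.sub_self, Nat.sub_sub] using h1
  · subst hn
    exact ⟨fourfold_even hphi, fourfold hphi⟩
  · subst hn
    exact fivefold_odd hphi h10

end Pool.Agent.Hodge81
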