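import Mathlib

/-!
# Semidefinite subspaces of a nondegenerate symmetric form
-/

set_option autoImplicit false

namespace Pool.Agent.Hodge81

open Module

variable {W : Type*} [AddCommGroup W] [Module ℝ W] [FiniteDimensional ℝ W]

omit [FiniteDimensional ℝ W] in
/-- Cauchy-Schwarz for a null vector of a semidefinite form. -/
theorem null_orth (b : LinearMap.BilinForm ℝ W) (hs : ∀ v w, b v w = b w v) (A : Submodule ℝ W)
    (hA : ∀ a ∈ A, 0 ≤ b a a) {t : W} (ht : t ∈ A) (h0 : b t t = 0) {a : W} (ha : a ∈ A) :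
    b t a = 0 := by
  by_contra hne
  have key : ∀ s : ℝ, 0 ≤ b a a + 2 * s * b t a := by
    intro s
    have h := hA (a + s • t) (A.add_mem ha (A.smul_mem s ht))
    have e : b (a + s • t) (a + s • t) = b a a + 2 * s * b t a := by
      simp only [map_add, map_smul, LinearMap.add_apply, LinearMap.smul_apply, smul_eq_mul]
      rw [h0, hs a t]
      ring
    rwa [e] at h
  have h1 := key (-(b a a + 1) / (2 * b t a))
  have h2 : 2 * (-(b a a + 1) / (2 * b t a)) * b t a = -(b a a + 1) := by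
    field_simp
  rw [h2] at h1
  linarith

theorem finrank_add_le (b : LinearMap.BilinForm ℝ W) (hs : ∀ v w, b v w = b w v)
    (hnd : ∀ v, (∀ w, b v w = 0) → v = 0)
    (A Z : Submodule ℝ W) (hA : ∀ a ∈ A, 0 ≤ b a a) (hZ : ∀ z ∈ Z, b z z ≤ 0) :
    finrank ℝ A + finrank ℝ Z ≤ finrank ℝ W := by
  have hnd' : b.Nondegenerate :=
    ⟨fun v h => hnd v h, fun w h => hnd w fun v => by rw [hs]; exact h v⟩
  have hT : A ⊓ Z ≤ b.orthogonal (A ⊔ Z) := by
    intro t ht
    rw [LinearMap.BilinForm.mem_orthogonal_iff]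
    intro x hx
    rw [Submodule.mem_sup] at hx
    obtain ⟨a, ha, z, hz, rfl⟩ := hx
    have h0 : b t t = 0 := le_antisymm (hZ t ht.2) (hA t ht.1)
    have h1 : b t a = 0 := null_orth b hs A hA ht.1 h0 ha
    have h2 : (-b) t z = 0 := by
      apply null_orth (-b) (fun v w => by simp [hs v w]) Z (fun z hz => by simpa using hZ z hz) ht.2
        (by simp [h0]) hz
    have h3 : b t z = 0 := by simpa using h2
    show b (a + z) t = 0
    rw [map_add, LinearMap.add_apply, hs a t, hs z t, h1, h3, add_zero]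
  have h1 := LinearMap.BilinForm.finrank_orthogonal hnd' (A ⊔ Z)
  have h2 := Submodule.finrank_mono hT
  have h3 := Submodule.finrank_sup_add_finrank_inf_eq A Z
  have h4 := Submodule.finrank_le (A ⊔ Z)
  omega

/-- the same inside a subspace `C` on which the form is nondegenerate -/
theorem finrank_add_le' (b : LinearMap.BilinForm ℝ W) (hs : ∀ v w, b v w = b w v)
    (C : Submodule ℝ W) (hnd : ∀ v ∈ C, (∀ w ∈ C, b v w = 0) → v = 0)
    (A Z : Submodule ℝ W) (hAC : A ≤ C) (hZC : Z ≤ C) (hA : ∀ a ∈ A, 0 ≤ b a a)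
    (hZ : ∀ z ∈ Z, b z z ≤ 0) :
    finrank ℝ A + finrank ℝ Z ≤ finrank ℝ C := by
  have h := finrank_add_le (b.restrict C) (fun v w => hs v w)
    (fun v hv => by
      apply Subtype.ext
      exact hnd v v.2 fun w hw => hv ⟨w, hw⟩)
    (A.submoduleOf C) (Z.submoduleOf C) (fun a ha => hA a ha) (fun z hz => hZ z hz)
  rwa [(Submodule.submoduleOfEquivOfLe hAC).finrank_eq,
    (Submodule.submoduleOfEquivOfLe hZC).finrank_eq] at h

end Pool.Agent.Hodge81
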