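import Pool.Agent.Helper81.Hodge.Defs
import Pool.Agent.Helper81.Hodge.Form

/-!
# Elementary consequences
-/

set_option autoImplicit false

namespace Pool.Agent.Hodge81

open Complex Module

theorem finrank_biSup {ι K V : Type*} [DecidableEq ι] [Field K] [AddCommGroup V] [Module K V]
    [FiniteDimensional K V] (p : ι → Submodule K V) (s : Finset ι)
    (h : ∀ i ∈ s, ∀ t ⊆ s, i ∉ t → Disjoint (p i) (⨆ j ∈ t, p j)) :
    finrank K (⨆ i ∈ s, p i : Submodule K V) = ∑ i ∈ s, finrank K (p i) := by
  induction s using Finset.induction_on with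
  | empty => simp
  | insert a s ha ih =>
    rw [Finset.sum_insert ha, Finset.iSup_insert]
    have h1 := Submodule.finrank_sup_add_finrank_inf_eq (p a) (⨆ i ∈ s, p i)
    have h2 : p a ⊓ (⨆ i ∈ s, p i) = ⊥ :=
      (h a (Finset.mem_insert_self a s) s (Finset.subset_insert a s) ha).eq_bot
    rw [h2, finrank_bot, add_zero] at h1
    rw [h1, ih fun i hi t ht hit => h i (Finset.mem_insert_of_mem hi) t
      (ht.trans (Finset.subset_insert a s)) hit]

theorem finrank_restrict {V : Type*} [AddCommGroup V] [Module ℂ V] [FiniteDimensional ℂ V]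
    (S : Submodule ℂ V) : finrank ℝ (S.restrictScalars ℝ) = 2 * finrank ℂ S :=
  finrank_real_of_complex S

namespace HodgeRing

variable {n : ℕ} {A : Type*} [Ring A] [Algebra ℂ A] (X : HodgeRing n A)

theorem dual_of_mem {p q : ℕ} {a : A} (ha : a ∈ X.H p q) : X.dual a = I ^ (p + q) • a := by
  have h1 : (LinearEquiv.ofBijective (DirectSum.coeLinearMap (fun x : ℕ × ℕ => X.H x.1 x.2))
      X.internal).symm a = DirectSum.lof ℂ (ℕ × ℕ) (fun x => X.H x.1 x.2) (p, q) ⟨a, ha⟩ := by
    rw [LinearEquiv.symm_apply_eq]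
    exact (DirectSum.coeLinearMap_lof (fun x : ℕ × ℕ => X.H x.1 x.2) (p, q) ⟨a, ha⟩).symm
  simp only [dual, LinearMap.comp_apply, LinearEquiv.coe_coe, h1, DirectSum.toModule_lof,
    LinearMap.smul_apply, Submodule.subtype_apply]

theorem omega_comm {p q : ℕ} {a : A} (ha : a ∈ X.H p q) (k : ℕ) :
    a * X.omega ^ k = X.omega ^ k * a := by
  induction k with
  | zero => simp
  | succ k ih =>
    have h1 : a * X.omega = X.omega * a := by
      rw [X.comm p q 1 1 a X.omega ha X.omega_mem]
      have : ((-1 : ℂ) ^ ((p + q) * (1 + 1))) = 1 := by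
        rw [show (p + q) * (1 + 1) = 2 * (p + q) by ring, pow_mul]
        norm_num
      rw [this, one_smul]
    rw [pow_succ, ← mul_assoc, ih, mul_assoc, h1, ← mul_assoc]

theorem pow_mem {x : A} (hx : x ∈ X.H 1 1) {p q : ℕ} {a : A} (ha : a ∈ X.H p q) (k : ℕ) :
    x ^ k * a ∈ X.H (p + k) (q + k) := by
  induction k with
  | zero => simpa using ha
  | succ k ih =>
    have := X.mul_mem 1 1 (p + k) (q + k) x _ hx ih
    rw [pow_succ', mul_assoc]
    rwa [show p + (k + 1) = 1 + (p + k) by ring, show q + (k + 1) = 1 + (q + k) by ring]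

/-- `mukai` on homogeneous elements of large degree -/
theorem mukai_eq_zero {p q p' q' : ℕ} {v w : A} (hv : v ∈ X.H p q) (hw : w ∈ X.H p' q')
    (h : 2 * n < p + q + p' + q') : X.mukai v w = 0 := by
  rw [mukai, X.dual_of_mem hv, expHalfC1, Finset.sum_mul, Finset.sum_mul, map_sum]
  refine Finset.sum_eq_zero fun j _ => ?_
  rw [mul_smul_comm, smul_mul_assoc, smul_mul_assoc, smul_mul_assoc, map_smul, map_smul]
  have h1 := X.mul_mem _ _ _ _ _ _ (X.pow_mem X.c1_mem hv j) hw
  rw [X.int_off _ _ _ h1 (fun h2 => by simp only [Prod.mk.injEq] at h2; omega)]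
  simp

/-- `mukai` on homogeneous elements of complementary degrees -/
theorem mukai_lead {p q p' q' : ℕ} {v w : A} (hv : v ∈ X.H p q) (hw : w ∈ X.H p' q')
    (h : p + q + p' + q' = 2 * n) : X.mukai v w = I ^ (p + q) * X.int (v * w) := by
  rw [mukai, X.dual_of_mem hv, expHalfC1, Finset.sum_mul, Finset.sum_mul, map_sum,
    Finset.sum_eq_single 0]
  · simp
  · intro j _ hj
    rw [mul_smul_comm, smul_mul_assoc, smul_mul_assoc, smul_mul_assoc, map_smul, map_smul]
    have h1 := X.mul_mem _ _ _ _ _ _ (X.pow_mem X.c1_mem hv j) hw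
    rw [X.int_off _ _ _ h1 (fun h2 => by simp only [Prod.mk.injEq] at h2; omega)]
    simp
  · intro h0
    simp at h0

theorem mukai_add_left (v v' w : A) : X.mukai (v + v') w = X.mukai v w + X.mukai v' w := by
  simp [mukai, mul_add, add_mul]

theorem mukai_add_right (v w w' : A) : X.mukai v (w + w') = X.mukai v w + X.mukai v w' := by
  simp [mukai, mul_add]

theorem mukai_smul_left (z : ℂ) (v w : A) : X.mukai (z • v) w = z * X.mukai v w := by
  simp [mukai]

theorem mukai_smul_right (z : ℂ) (v w : A) : X.mukai v (z • w) = z * X.mukai v w := by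
  simp [mukai]

theorem conj_real_smul (r : ℝ) (a : A) : X.conj (r • a) = r • X.conj a := by
  rw [← Complex.coe_smul r a, X.conj_smul, Complex.conj_ofReal, Complex.coe_smul]

/-- the real symmetric form -/
noncomputable def form : LinearMap.BilinForm ℝ A :=
  LinearMap.mk₂ ℝ (fun v w => (X.mukai v (X.conj w)).re + (X.mukai w (X.conj v)).re)
    (fun v v' w => by
      simp only [mukai_add_left, mukai_add_right, map_add, Complex.add_re]; ring)
    (fun r v w => by
      simp only [← Complex.coe_smul, X.conj_smul, Complex.conj_ofReal, mukai_smul_left,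
        mukai_smul_right, Complex.re_ofReal_mul, smul_eq_mul]; ring)
    (fun v w w' => by
      simp only [mukai_add_left, mukai_add_right, map_add, Complex.add_re]; ring)
    (fun r v w => by
      simp only [← Complex.coe_smul, X.conj_smul, Complex.conj_ofReal, mukai_smul_left,
        mukai_smul_right, Complex.re_ofReal_mul, smul_eq_mul]; ring)

theorem form_apply (v w : A) :
    X.form v w = (X.mukai v (X.conj w)).re + (X.mukai w (X.conj v)).re := rfl

theorem form_symm (v w : A) : X.form v w = X.form w v := by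
  rw [form_apply, form_apply, add_comm]

theorem form_eq_zero {p q p' q' : ℕ} {v w : A} (hv : v ∈ X.H p q) (hw : w ∈ X.H p' q')
    (h : 2 * n < p + q + p' + q') : X.form v w = 0 := by
  rw [form_apply, X.mukai_eq_zero hv (X.conj_mem _ _ _ hw) (by omega),
    X.mukai_eq_zero hw (X.conj_mem _ _ _ hv) (by omega)]
  simp

/-- the form on homogeneous elements of complementary degrees `k`, `2n-k`, `k = n` mod 2 -/
theorem form_lead {p q p' q' : ℕ} {v w : A} (hv : v ∈ X.H p q) (hw : w ∈ X.H p' q')
    (h : p + q + p' + q' = 2 * n) (hpar : (p + q) % 2 = n % 2) :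
    X.form v w = 2 * (I ^ (p + q) * X.int (v * X.conj w)).re := by
  have hcv := X.conj_mem _ _ _ hv
  have hcw := X.conj_mem _ _ _ hw
  have h1 : X.mukai w (X.conj v) = (starRingEnd ℂ) (X.mukai v (X.conj w)) := by
    rw [X.mukai_lead hv hcw (by omega), X.mukai_lead hw hcv (by omega), map_mul (starRingEnd ℂ), ← X.int_conj,
      map_mul X.conj, X.conj_conj, X.comm _ _ _ _ _ _ hcv hw, map_smul, smul_eq_mul, map_pow, conj_I,
      ← mul_assoc]
    congr 1
    obtain ⟨d, hd⟩ : ∃ d, p' + q' = p + q + 2 * d ∨ p + q = p' + q' + 2 * d := by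
      rcases le_total (p + q) (p' + q') with hle | hle
      · exact ⟨(p' + q' - (p + q)) / 2, Or.inl (by omega)⟩
      · exact ⟨(p + q - (p' + q')) / 2, Or.inr (by omega)⟩
    have e1 : ∀ m : ℕ, (-1 : ℂ) ^ (2 * m) = 1 := fun m => by rw [pow_mul]; norm_num
    have hdd : ∃ e, d = 2 * e := ⟨d / 2, by omega⟩
    obtain ⟨e, rfl⟩ := hdd
    have e2 : ∀ m : ℕ, I ^ (m + 2 * (2 * e)) = I ^ m := fun m => by
      rw [pow_add, show 2 * (2 * e) = 4 * e by ring, pow_mul, I_pow_four, one_pow, mul_one]
    have hI : I ^ (p' + q') = I ^ (p + q) := by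
      rcases hd with hd | hd
      · rw [hd, e2]
      · rw [hd, e2]
    have hpar2 : (-1 : ℂ) ^ ((q + p) * (p' + q')) = (-1) ^ (p + q) := by
      rcases Nat.even_or_odd (p + q) with he | ho
      · obtain ⟨m, hm⟩ := he
        have : (q + p) * (p' + q') = 2 * (m * (p' + q')) := by
          rw [show q + p = 2 * m by omega]; ring
        rw [this, e1, hm, ← two_mul, e1]
      · have ho' : Odd (p' + q') := by
          rcases hd with hd | hd
          · rw [hd]; exact ho.add_even (even_two_mul _)
          · rw [Nat.odd_iff] at ho ⊢; omega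
        have ho2 : Odd (q + p) := by rwa [add_comm]
        rw [(ho2.mul ho').neg_one_pow, ho.neg_one_pow]
    have e3 : (-1 : ℂ) ^ (p + q) * (-1) ^ (p + q) = 1 := by rw [← pow_add, ← two_mul, e1]
    rw [hpar2, hI, neg_pow I (p + q), mul_right_comm, e3, one_mul]
  rw [form_apply, h1, Complex.conj_re, X.mukai_lead hv hcw (by omega)]
  ring

end HodgeRing

end Pool.Agent.Hodge81
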