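import Mathlib

/-!
# The cohomology ring of a smooth projective variety, and isometries of the Mukai pairing
-/

set_option autoImplicit false

namespace Pool.Agent.Hodge81

open Complex

/-- The structure which Hodge theory puts on `A = H^*(X, ℂ)` for a smooth projective complex
variety `X` of dimension `n`: the Hodge decomposition of the graded-commutative cohomology ring,
complex conjugation, integration over `X`, Poincare duality, an ample class `omega` with the
Hodge-Riemann bilinear relations, and the first Chern class `c1`. -/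
structure HodgeRing (n : ℕ) (A : Type*) [Ring A] [Algebra ℂ A] where
  /-- `H p q` is `H^{p,q}(X)` -/
  H : ℕ → ℕ → Submodule ℂ A
  /-- the ring is the direct sum of the `H p q` -/
  internal : DirectSum.IsInternal (fun x : ℕ × ℕ => H x.1 x.2)
  bounded : ∀ p q, n < p ∨ n < q → H p q = ⊥
  connected : Module.finrank ℂ (H 0 0) = 1
  mul_mem : ∀ p q p' q' a b, a ∈ H p q → b ∈ H p' q' → a * b ∈ H (p + p') (q + q')
  comm : ∀ p q p' q' a b, a ∈ H p q → b ∈ H p' q' →
    a * b = (-1 : ℂ) ^ ((p + q) * (p' + q')) • (b * a)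
  /-- complex conjugation -/
  conj : A →+* A
  conj_smul : ∀ (z : ℂ) a, conj (z • a) = (starRingEnd ℂ) z • conj a
  conj_conj : ∀ a, conj (conj a) = a
  conj_mem : ∀ p q a, a ∈ H p q → conj a ∈ H q p
  /-- integration over `X` -/
  int : A →ₗ[ℂ] ℂ
  int_conj : ∀ a, int (conj a) = (starRingEnd ℂ) (int a)
  int_off : ∀ p q a, a ∈ H p q → (p, q) ≠ (n, n) → int a = 0
  poincare : ∀ a, (∀ b, int (a * b) = 0) → a = 0
  /-- the class of an ample divisor -/
  omega : A
  omega_mem : omega ∈ H 1 1
  omega_real : conj omega = omega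
  hodgeRiemann : ∀ p q a, a ∈ H p q → p + q ≤ n → omega ^ (n - (p + q) + 1) * a = 0 → a ≠ 0 →
    ∃ r : ℝ, 0 < r ∧ I ^ p * (-I) ^ q * (-1) ^ ((p + q) * (p + q - 1) / 2) *
      int (omega ^ (n - (p + q)) * a * conj a) = (r : ℂ)
  /-- the first Chern class of `X` -/
  c1 : A
  c1_mem : c1 ∈ H 1 1
  c1_real : conj c1 = c1

namespace HodgeRing

variable {n : ℕ} {A : Type*} [Ring A] [Algebra ℂ A] (X : HodgeRing n A)

/-- the Hodge number `h^{p,q}(X)` -/
noncomputable def h (p q : ℕ) : ℕ := Module.finrank ℂ (X.H p q)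

/-- the column `⨁_{p - q = i} H^{p,q}(X)` of the Hodge diamond -/
def column (i : ℤ) : Submodule ℂ A :=
  ⨆ (x : ℕ × ℕ) (_ : (x.1 : ℤ) - (x.2 : ℤ) = i), X.H x.1 x.2

/-- the dual `v ↦ v^∨` of a Mukai vector: multiplication by `I^k` on `H^k` -/
noncomputable def dual : A →ₗ[ℂ] A :=
  (DirectSum.toModule ℂ (ℕ × ℕ) A
      (fun x => (I ^ (x.1 + x.2) : ℂ) • (X.H x.1 x.2).subtype)) ∘ₗ
    (LinearEquiv.ofBijective (DirectSum.coeLinearMap (fun x : ℕ × ℕ => X.H x.1 x.2))
      X.internal).symm.toLinearMap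

/-- `exp (c1 / 2)` -/
noncomputable def expHalfC1 : A :=
  ∑ j ∈ Finset.range (n + 1), ((2 ^ j * j.factorial : ℕ) : ℂ)⁻¹ • X.c1 ^ j

/-- the Mukai pairing `⟨v, w⟩ = ∫ exp (c1 / 2) v^∨ w` -/
noncomputable def mukai (v w : A) : ℂ := X.int (X.expHalfC1 * X.dual v * w)

end HodgeRing

/-- `phi` is what a derived equivalence induces on cohomology: a linear isomorphism commuting
with complex conjugation, which maps every column of the Hodge diamond of `X` onto the same column
for `Y` and preserves the Mukai pairing. -/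
structure IsMukaiIsometry {n : ℕ} {A B : Type*} [Ring A] [Algebra ℂ A] [Ring B] [Algebra ℂ B]
    (X : HodgeRing n A) (Y : HodgeRing n B) (phi : A ≃ₗ[ℂ] B) : Prop where
  conj : ∀ a, phi (X.conj a) = Y.conj (phi a)
  column : ∀ i, (X.column i).map phi.toLinearMap = Y.column i
  mukai : ∀ v w, Y.mukai (phi v) (phi w) = X.mukai v w

end Pool.Agent.Hodge81
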