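import Pool.Agent.Helper81.Hodge.Basic

/-!
# Dualities and the hard Lefschetz theorem
-/

set_option autoImplicit false

namespace Pool.Agent.Hodge81

open Complex Module

namespace HodgeRing

variable {n : ℕ} {A : Type*} [Ring A] [Algebra ℂ A] (X : HodgeRing n A)

theorem indep : iSupIndep (fun x : ℕ × ℕ => X.H x.1 x.2) := X.internal.submodule_iSupIndep

theorem iSup_H : ⨆ x : ℕ × ℕ, X.H x.1 x.2 = ⊤ := X.internal.submodule_iSup_eq_top

theorem int_eq_zero_of {v : A} (h : ∀ p q, ∀ b ∈ X.H p q, X.int (v * b) = 0) : v = 0 := by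
  refine X.poincare v fun b => ?_
  have hb : b ∈ ⨆ x : ℕ × ℕ, X.H x.1 x.2 := by rw [X.iSup_H]; trivial
  induction hb using Submodule.iSup_induction' with
  | mem x b hb => exact h _ _ b hb
  | zero => simp
  | add b c _ _ hb hc => rw [mul_add, map_add, hb, hc, add_zero]

/-- Poincare duality between `H p q` and `H (n-p) (n-q)` -/
theorem exists_int_ne {p q : ℕ} (hp : p ≤ n) (hq : q ≤ n) {v : A} (hv : v ∈ X.H p q)
    (h0 : v ≠ 0) : ∃ b ∈ X.H (n - p) (n - q), X.int (v * b) ≠ 0 := by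
  by_contra hcon
  push Not at hcon
  refine h0 (X.int_eq_zero_of fun a c b hb => ?_)
  by_cases hab : a = n - p ∧ c = n - q
  · obtain ⟨rfl, rfl⟩ := hab
    exact hcon b hb
  · refine X.int_off _ _ _ (X.mul_mem _ _ _ _ _ _ hv hb) fun h => hab ?_
    simp only [Prod.mk.injEq] at h
    omega

/-- nondegeneracy of the real form on homogeneous elements -/
theorem exists_form_ne {p q : ℕ} (hp : p ≤ n) (hq : q ≤ n) (hpar : (p + q) % 2 = n % 2) {v : A}
    (hv : v ∈ X.H p q) (h0 : v ≠ 0) : ∃ w ∈ X.H (n - q) (n - p), X.form v w ≠ 0 := by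
  obtain ⟨b, hb, hne⟩ := X.exists_int_ne hp hq hv h0
  set c : ℂ := I ^ (p + q) * X.int (v * b) with hc
  have hc0 : c ≠ 0 := mul_ne_zero (pow_ne_zero _ I_ne_zero) hne
  refine ⟨c • X.conj b, Submodule.smul_mem _ _ (X.conj_mem _ _ _ hb), ?_⟩
  rw [X.form_lead hv (Submodule.smul_mem _ _ (X.conj_mem _ _ _ hb)) (by omega) hpar, X.conj_smul,
    X.conj_conj, mul_smul_comm, map_smul, smul_eq_mul]
  have e : I ^ (p + q) * ((starRingEnd ℂ) c * X.int (v * b)) = (Complex.normSq c : ℂ) := by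
    rw [Complex.normSq_eq_conj_mul_self, hc]
    ring
  rw [e, Complex.ofReal_re]
  have := Complex.normSq_pos.2 hc0
  positivity

variable [FiniteDimensional ℂ A]

theorem h_le_serre {p q : ℕ} (hp : p ≤ n) (hq : q ≤ n) : X.h p q ≤ X.h (n - p) (n - q) := by
  let B : A →ₗ[ℂ] A →ₗ[ℂ] ℂ := (LinearMap.mul ℂ A).compr₂ X.int
  let f : X.H p q →ₗ[ℂ] Dual ℂ (X.H (n - p) (n - q)) :=
    B.domRestrict₁₂ (X.H p q) (X.H (n - p) (n - q))
  have hinj : Function.Injective f := by
    rw [injective_iff_map_eq_zero]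
    rintro ⟨v, hv⟩ hfv
    by_contra h0
    have h0' : v ≠ 0 := fun h => h0 (Subtype.ext h)
    obtain ⟨b, hb, hne⟩ := X.exists_int_ne hp hq hv h0'
    exact hne (LinearMap.congr_fun hfv ⟨b, hb⟩)
  have h1 := LinearMap.finrank_le_finrank_of_injective hinj
  rwa [Subspace.dual_finrank_eq] at h1

/-- Serre duality -/
theorem h_serre {p q : ℕ} (hp : p ≤ n) (hq : q ≤ n) : X.h (n - p) (n - q) = X.h p q := by
  refine le_antisymm ?_ (X.h_le_serre hp hq)
  have := X.h_le_serre (Nat.sub_le n p) (Nat.sub_le n q)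
  rwa [Nat.sub_sub_self hp, Nat.sub_sub_self hq] at this

/-- conjugation as a real linear map -/
noncomputable def conjR : A →ₗ[ℝ] A where
  toFun := X.conj
  map_add' := map_add X.conj
  map_smul' := X.conj_real_smul

theorem h_le_conj (p q : ℕ) : X.h p q ≤ X.h q p := by
  have hinj : Function.Injective X.conjR := fun a b hab => by
    rw [← X.conj_conj a, ← X.conj_conj b]
    exact congrArg X.conj hab
  have h1 : ((X.H p q).restrictScalars ℝ).map X.conjR ≤ (X.H q p).restrictScalars ℝ := by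
    rintro _ ⟨a, ha, rfl⟩
    exact X.conj_mem _ _ _ ha
  have : FiniteDimensional ℝ A := FiniteDimensional.complexToReal A
  have h2 := Submodule.finrank_mono h1
  have h3 : finrank ℝ (((X.H p q).restrictScalars ℝ).map X.conjR) =
      finrank ℝ ((X.H p q).restrictScalars ℝ) :=
    (Submodule.equivMapOfInjective X.conjR hinj _).symm.finrank_eq
  rw [h3, finrank_restrict, finrank_restrict] at h2
  unfold h
  omega

/-- Hodge symmetry -/
theorem h_conj (p q : ℕ) : X.h p q = X.h q p := le_antisymm (X.h_le_conj p q) (X.h_le_conj q p)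

omit [FiniteDimensional ℂ A] in
/-- hard Lefschetz -/
theorem lefschetz {p q : ℕ} {a : A} (ha : a ∈ X.H p q) (hpq : p + q ≤ n)
    (h : X.omega ^ (n - (p + q)) * a = 0) : a = 0 := by
  by_contra h0
  obtain ⟨r, hr, he⟩ := X.hodgeRiemann p q a ha hpq (by rw [pow_succ', mul_assoc, h, mul_zero]) h0
  rw [h, zero_mul, map_zero, mul_zero] at he
  have : r = 0 := by exact_mod_cast he.symm
  exact hr.ne' this

end HodgeRing

end Pool.Agent.Hodge81
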