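import Pool.Agent.Helper81.Hodge.Main

/-!
# Signatures of the Mukai pairing on the columns of the Hodge diamond

Mathematical content. Let `X`, `Y` be smooth projective varieties of dimension `n` whose
cohomology rings are related by an isomorphism `phi` of the kind a derived equivalence induces: it
commutes with complex conjugation, maps the column `⨁_{p-q=i} H^{p,q}(X)` onto the same column of
`Y`, and is an isometry for the Mukai pairing `⟨v, w⟩ = ∫ exp (c1/2) v^∨ w`. Then the hermitian
part of `(v, w) ↦ ⟨v, conj w⟩` on the column of index `i` has the same signature for `X` and `Y`.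
The part of degree `> n` of the column is isotropic, and the Hodge-Riemann relations give the
signature on the middle piece `H^{p,q}`, `p + q = n`, `p - q = i`. The resulting invariants are
the sums below.
-/

set_option autoImplicit false

namespace Pool.Agent.Results.MP_b4fe5e_ag.MukaiSignature

open Pool.Agent.Hodge81

theorem result {n : ℕ} {A B : Type*} [Ring A] [Algebra ℂ A] [FiniteDimensional ℂ A]
    [Ring B] [Algebra ℂ B] [FiniteDimensional ℂ B]
    (X : HodgeRing n A) (Y : HodgeRing n B) (phi : A ≃ₗ[ℂ] B) (hphi : IsMukaiIsometry X Y phi) :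
    (∀ p q, p + q = n →
      ∑ k ∈ Finset.range (min p q + 1) with Odd k, X.h (p - k) (q - k) =
        ∑ k ∈ Finset.range (min p q + 1) with Odd k, Y.h (p - k) (q - k) ∧
      X.h p q + 2 * ∑ k ∈ Finset.Icc 1 (min p q) with Even k, X.h (p - k) (q - k) =
        Y.h p q + 2 * ∑ k ∈ Finset.Icc 1 (min p q) with Even k, Y.h (p - k) (q - k)) ∧
    (2 ≤ n → X.h 0 (n - 2) = Y.h 0 (n - 2)) ∧
    (n = 4 → (∀ p q, Even (p + q) → X.h p q = Y.h p q) ∧
      (X.h 1 0 = Y.h 1 0 → ∀ p q, X.h p q = Y.h p q)) ∧
    (n = 5 → X.h 1 0 = Y.h 1 0 → ∀ p q, Odd (p + q) → X.h p q = Y.h p q) :=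
  main X Y phi hphi

end Pool.Agent.Results.MP_b4fe5e_ag.MukaiSignature
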