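import Pool.Agent.Helper81.Hodge.Col

/-!
# The semidefinite subspaces of a column
-/

set_option autoImplicit false

namespace Pool.Agent.Hodge81

open Complex Module

/-- counting with `c k + a (k+1) = a k` -/
theorem count_aux (a c : ℕ → ℕ) (m : ℕ) (h : ∀ k < m, c k + a (k + 1) = a k) :
    (∑ k ∈ Finset.range m, (if k % 2 = 0 then c k else 0)) +
      (∑ k ∈ Finset.range (m + 1), (if k % 2 = 1 then a k else 0)) =
      (∑ k ∈ Finset.range m, (if k % 2 = 0 then a k else 0)) ∧
    (∑ k ∈ Finset.range m, (if k % 2 = 1 then c k else 0)) +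
      (∑ k ∈ Finset.range (m + 1), (if k % 2 = 0 then a k else 0)) =
      (∑ k ∈ Finset.range m, (if k % 2 = 1 then a k else 0)) + a 0 := by
  induction m with
  | zero => simp
  | succ m ih =>
    obtain ⟨i1, i2⟩ := ih fun k hk => h k (by omega)
    have hm := h m (by omega)
    rw [Finset.sum_range_succ (fun k => if k % 2 = 0 then c k else 0),
      Finset.sum_range_succ (fun k => if k % 2 = 1 then c k else 0),
      Finset.sum_range_succ (fun k => if k % 2 = 1 then a k else 0) (m + 1),
      Finset.sum_range_succ (fun k => if k % 2 = 0 then a k else 0) (m + 1),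
      Finset.sum_range_succ (fun k => if k % 2 = 1 then a k else 0) m,
      Finset.sum_range_succ (fun k => if k % 2 = 0 then a k else 0) m]
    rw [Finset.sum_range_succ (fun k => if k % 2 = 1 then a k else 0) m] at i1
    rw [Finset.sum_range_succ (fun k => if k % 2 = 0 then a k else 0) m] at i2
    rcases Nat.mod_two_eq_zero_or_one m with h0 | h1
    · have h2 : (m + 1) % 2 = 1 := by omega
      simp only [h0, h2, if_true, if_false, zero_ne_one, one_ne_zero, add_zero] at i1 i2 ⊢
      omega
    · have h2 : (m + 1) % 2 = 0 := by omega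
      simp only [h1, h2, if_true, if_false, zero_ne_one, one_ne_zero, add_zero] at i1 i2 ⊢
      omega

namespace HodgeRing

variable {n : ℕ} {A : Type*} [Ring A] [Algebra ℂ A] (X : HodgeRing n A)

theorem disjoint_primMid {a b r : ℕ} (hn : a + b + 2 * r = n) {i : ℕ} (hi : i ≤ r)
    {t : Finset ℕ} (ht : ∀ j ∈ t, j ≤ r) (hit : i ∉ t) :
    Disjoint (X.primMid a b r i) (⨆ j ∈ t, X.primMid a b r j) := by
  rw [Submodule.disjoint_def]
  intro x hx hxt
  obtain ⟨mu, hmu⟩ := (Submodule.mem_iSup_finset_iff_exists_sum _ _).1 hxt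
  by_contra h0
  have h1 := X.form_primMid_pos hn hi hx h0
  have h2 : X.form x x = 0 := by
    nth_rewrite 2 [← hmu]
    rw [map_sum]
    refine Finset.sum_eq_zero fun j hj => ?_
    exact X.form_primMid_of_ne hn hi (ht j hj) (fun h => hit (h ▸ hj)) hx (mu j).2
  rw [h2, mul_zero] at h1
  exact lt_irrefl _ h1

/-- the sum of the primitive parts with index `= t` mod 2 -/
noncomputable def midPart (a b r t : ℕ) : Submodule ℂ A :=
  ⨆ k ∈ (Finset.range (r + 1)).filter (fun k => k % 2 = t), X.primMid a b r k

theorem midPart_le (a b r t : ℕ) : X.midPart a b r t ≤ X.H (a + r) (b + r) := by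
  refine iSup₂_le fun k hk => X.primMid_le ?_
  simp only [Finset.mem_filter, Finset.mem_range] at hk
  omega

theorem form_midPart {a b r t : ℕ} (hn : a + b + 2 * r = n) {y : A}
    (hy : y ∈ X.midPart a b r t) :
    0 ≤ (-1 : ℝ) ^ (b + r + n * (n - 1) / 2) * (-1) ^ t * X.form y y := by
  obtain ⟨mu, hmu⟩ := (Submodule.mem_iSup_finset_iff_exists_sum _ _).1 hy
  rw [← hmu, map_sum, Finset.mul_sum]
  refine Finset.sum_nonneg fun k hk => ?_
  have hkr : k ≤ r ∧ k % 2 = t := by
    simp only [Finset.mem_filter, Finset.mem_range] at hk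
    omega
  have h1 : (X.form (∑ i ∈ (Finset.range (r + 1)).filter (fun k => k % 2 = t), (mu i : A)))
      (mu k : A) = X.form (mu k) (mu k) := by
    rw [map_sum, LinearMap.sum_apply, Finset.sum_eq_single_of_mem k hk]
    intro l hl hlk
    have hlr : l ≤ r := by
      simp only [Finset.mem_filter, Finset.mem_range] at hl
      omega
    exact X.form_primMid_of_ne hn hlr hkr.1 hlk (mu l).2 (mu k).2
  rw [h1]
  by_cases h0 : (mu k : A) = 0
  · rw [h0]; simp
  · have h2 := X.form_primMid_pos hn hkr.1 (mu k).2 h0
    have h3 : (-1 : ℝ) ^ k = (-1) ^ t := by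
      rw [← hkr.2]
      rcases Nat.mod_two_eq_zero_or_one k with h | h
      · rw [h, pow_zero]
        exact (Nat.even_iff.2 h).neg_one_pow
      · rw [h, pow_one]
        exact (Nat.odd_iff.2 h).neg_one_pow
    rw [← h3]
    exact h2.le

/-- the part of the column of degree greater than `n` -/
noncomputable def upper (a b r : ℕ) : Submodule ℂ A :=
  ⨆ j ∈ Finset.Ioc r (2 * r), X.H (a + j) (b + j)

theorem form_upper {a b r : ℕ} (hn : a + b + 2 * r = n) {x : A} (hx : x ∈ X.upper a b r) {j : ℕ}
    (hj : r ≤ j) {y : A} (hy : y ∈ X.H (a + j) (b + j)) : X.form x y = 0 := by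
  obtain ⟨mu, hmu⟩ := (Submodule.mem_iSup_finset_iff_exists_sum _ _).1 hx
  rw [← hmu, map_sum, LinearMap.sum_apply]
  refine Finset.sum_eq_zero fun k hk => ?_
  rw [Finset.mem_Ioc] at hk
  exact X.form_eq_zero (mu k).2 hy (by omega)

theorem form_upper_upper {a b r : ℕ} (hn : a + b + 2 * r = n) {x y : A} (hx : x ∈ X.upper a b r)
    (hy : y ∈ X.upper a b r) : X.form x y = 0 := by
  obtain ⟨mu, hmu⟩ := (Submodule.mem_iSup_finset_iff_exists_sum _ _).1 hy
  rw [← hmu, map_sum]
  refine Finset.sum_eq_zero fun k hk => ?_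
  rw [Finset.mem_Ioc] at hk
  exact X.form_upper hn hx hk.1.le (mu k).2

/-- the semidefinite subspace of sign `(-1)^t` -/
noncomputable def semi (a b r t : ℕ) : Submodule ℂ A := X.upper a b r ⊔ X.midPart a b r t

theorem form_semi {a b r t : ℕ} (hn : a + b + 2 * r = n) {y : A}
    (hy : y ∈ X.semi a b r t) :
    0 ≤ (-1 : ℝ) ^ (b + r + n * (n - 1) / 2) * (-1) ^ t * X.form y y := by
  obtain ⟨u, hu, v, hv, rfl⟩ := Submodule.mem_sup.1 hy
  have hv' := X.midPart_le a b r t hv
  have h1 : X.form (u + v) (u + v) = X.form v v := by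
    rw [map_add, map_add, LinearMap.add_apply, LinearMap.add_apply, X.form_upper_upper hn hu hu,
      X.form_symm v u, X.form_upper hn hu le_rfl hv']
    ring
  rw [h1]
  exact X.form_midPart hn hv

theorem semi_le (a b r t : ℕ) :
    X.semi a b r t ≤ ⨆ j ∈ Finset.range (2 * r + 1), X.H (a + j) (b + j) := by
  refine sup_le ?_ ((X.midPart_le a b r t).trans ?_)
  · refine iSup₂_le fun j hj => ?_
    rw [Finset.mem_Ioc] at hj
    exact le_iSup₂ (f := fun j (_ : j ∈ Finset.range (2 * r + 1)) => X.H (a + j) (b + j)) j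
      (by simp only [Finset.mem_range]; omega)
  · exact le_iSup₂ (f := fun j (_ : j ∈ Finset.range (2 * r + 1)) => X.H (a + j) (b + j)) r
      (by simp only [Finset.mem_range]; omega)

variable [FiniteDimensional ℂ A]

theorem finrank_pieces (a b : ℕ) (s : Finset ℕ) :
    finrank ℂ (⨆ j ∈ s, X.H (a + j) (b + j) : Submodule ℂ A) = ∑ j ∈ s, X.h (a + j) (b + j) :=
  finrank_biSup _ s fun _ _ _ _ hit => X.disjoint_piece a b hit

/-- symmetry of the column -/
theorem h_symm {a b r k : ℕ} (hn : a + b + 2 * r = n) (hk : k ≤ r) :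
    X.h (a + (r - k)) (b + (r - k)) = X.h (a + (r + k)) (b + (r + k)) := by
  rw [← X.h_serre (p := a + (r - k)) (q := b + (r - k)) (by omega) (by omega),
    show n - (a + (r - k)) = b + (r + k) by omega, show n - (b + (r - k)) = a + (r + k) by omega,
    X.h_conj]

theorem finrank_prim {a b r k : ℕ} (hn : a + b + 2 * r = n) (hk : k ≤ r)
    (hab : a = 0 ∨ b = 0) :
    finrank ℂ (X.prim a b r k) + X.h (a + (r + k + 1)) (b + (r + k + 1)) =
      X.h (a + (r - k)) (b + (r - k)) := by
  set G := X.H (a + (r - k)) (b + (r - k)) with hG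
  set L := LinearMap.mulLeft ℂ (X.omega ^ (2 * k + 1)) with hL
  have h1 := LinearMap.finrank_range_add_finrank_ker (L.domRestrict G)
  have h2 : LinearMap.range (L.domRestrict G) = X.H (a + (r + k + 1)) (b + (r + k + 1)) := by
    rw [LinearMap.range_domRestrict]
    apply le_antisymm
    · rintro _ ⟨y, hy, rfl⟩
      have := X.pow_mem X.omega_mem hy (2 * k + 1)
      rwa [show a + (r - k) + (2 * k + 1) = a + (r + k + 1) by omega,
        show b + (r - k) + (2 * k + 1) = b + (r + k + 1) by omega] at this
    · rcases Nat.lt_or_ge k r with hlt | hge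
      · -- surjectivity from the hard Lefschetz isomorphism
        have hsurj : (X.H (a + (r - (k + 1))) (b + (r - (k + 1)))).map
            (LinearMap.mulLeft ℂ (X.omega ^ (2 * (k + 1)))) =
            X.H (a + (r + (k + 1))) (b + (r + (k + 1))) := by
          apply Submodule.eq_of_le_of_finrank_eq
          · rintro _ ⟨y, hy, rfl⟩
            have := X.pow_mem X.omega_mem hy (2 * (k + 1))
            rwa [show a + (r - (k + 1)) + 2 * (k + 1) = a + (r + (k + 1)) by omega,
              show b + (r - (k + 1)) + 2 * (k + 1) = b + (r + (k + 1)) by omega] at this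
          · have hinj : Function.Injective ((LinearMap.mulLeft ℂ
                (X.omega ^ (2 * (k + 1)))).domRestrict
                (X.H (a + (r - (k + 1))) (b + (r - (k + 1))))) := by
              rw [injective_iff_map_eq_zero]
              rintro ⟨y, hy⟩ h0
              apply Subtype.ext
              refine X.lefschetz hy (by omega) ?_
              rw [show n - (a + (r - (k + 1)) + (b + (r - (k + 1)))) = 2 * (k + 1) by omega]
              exact h0
            have h3 := LinearMap.finrank_range_of_inj hinj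
            rw [LinearMap.range_domRestrict] at h3
            rw [h3]
            exact X.h_symm hn hlt
        intro z hz
        rw [show r + k + 1 = r + (k + 1) by ring, ← hsurj] at hz
        obtain ⟨y, hy, rfl⟩ := hz
        refine ⟨X.omega * y, ?_, ?_⟩
        · have := X.pow_mem X.omega_mem hy 1
          rw [pow_one] at this
          rwa [show a + (r - (k + 1)) + 1 = a + (r - k) by omega,
            show b + (r - (k + 1)) + 1 = b + (r - k) by omega] at this
        · simp only [hL, LinearMap.mulLeft_apply]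
          rw [← mul_assoc, ← pow_succ]
          congr 2
      · rw [X.bounded _ _ (by rcases hab with h | h <;> omega)]
        exact bot_le
  have h3 : finrank ℂ (LinearMap.ker (L.domRestrict G)) = finrank ℂ (X.prim a b r k) := by
    have e1 : (LinearMap.ker (L.domRestrict G)).map G.subtype = X.prim a b r k := by
      ext x
      simp only [Submodule.mem_map, LinearMap.mem_ker, LinearMap.domRestrict_apply,
        Submodule.subtype_apply, prim, Submodule.mem_inf]
      constructor
      · rintro ⟨y, hy, rfl⟩
        exact ⟨y.2, hy⟩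
      · rintro ⟨hx, hx2⟩
        exact ⟨⟨x, hx⟩, hx2, rfl⟩
    rw [← e1]
    exact (Submodule.finrank_map_subtype_eq G _).symm
  rw [h2, h3] at h1
  have h4 : X.h (a + (r - k)) (b + (r - k)) = finrank ℂ G := rfl
  have h5 : X.h (a + (r + k + 1)) (b + (r + k + 1)) =
    finrank ℂ (X.H (a + (r + k + 1)) (b + (r + k + 1))) := rfl
  omega

omit [FiniteDimensional ℂ A] in
theorem finrank_primMid {a b r k : ℕ} (hn : a + b + 2 * r = n) (hk : k ≤ r) :
    finrank ℂ (X.primMid a b r k) = finrank ℂ (X.prim a b r k) := by
  have hinj : Function.Injective ((LinearMap.mulLeft ℂ (X.omega ^ k)).domRestrict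
      (X.prim a b r k)) := by
    rw [injective_iff_map_eq_zero]
    rintro ⟨y, hy⟩ h0
    apply Subtype.ext
    refine X.lefschetz hy.1 (by omega) ?_
    rw [show n - (a + (r - k) + (b + (r - k))) = k + k by omega, pow_add, mul_assoc]
    have h1 : X.omega ^ k * y = 0 := h0
    rw [h1, mul_zero]
  have h3 := LinearMap.finrank_range_of_inj hinj
  rwa [LinearMap.range_domRestrict] at h3

theorem finrank_midPart {a b r t : ℕ} (hn : a + b + 2 * r = n) :
    finrank ℂ (X.midPart a b r t) =
      ∑ k ∈ Finset.range (r + 1), (if k % 2 = t then finrank ℂ (X.prim a b r k) else 0) := by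
  unfold midPart
  rw [finrank_biSup, Finset.sum_filter]
  · refine Finset.sum_congr rfl fun k hk => ?_
    rw [X.finrank_primMid hn (by simp only [Finset.mem_range] at hk; omega)]
  · intro i hi s hs his
    refine X.disjoint_primMid hn ?_ (fun j hj => ?_) his
    · simp only [Finset.mem_filter, Finset.mem_range] at hi
      omega
    · have := hs hj
      simp only [Finset.mem_filter, Finset.mem_range] at this
      omega

theorem finrank_semi {a b r t : ℕ} (hn : a + b + 2 * r = n) :
    finrank ℂ (X.semi a b r t) = ∑ j ∈ Finset.Ioc r (2 * r), X.h (a + j) (b + j) +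
      ∑ k ∈ Finset.range (r + 1), (if k % 2 = t then finrank ℂ (X.prim a b r k) else 0) := by
  have h1 := Submodule.finrank_sup_add_finrank_inf_eq (X.upper a b r) (X.midPart a b r t)
  have h2 : X.upper a b r ⊓ X.midPart a b r t = ⊥ := by
    rw [← disjoint_iff]
    have := X.disjoint_piece a b (i := r) (t := Finset.Ioc r (2 * r)) (by simp)
    exact (this.mono_left (X.midPart_le a b r t)).symm
  rw [h2, finrank_bot, add_zero, X.finrank_midPart hn] at h1
  rw [semi, h1, upper, X.finrank_pieces]

end HodgeRing

end Pool.Agent.Hodge81
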